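import Pool.Agent.W345.GK.Inf

/-!
Part I2 of project GK (problem MP_a90b0f_nt): logarithmic derivatives of Laurent series in
characteristic `p` are fixed by the Cartier operator.
-/

set_option autoImplicit false

namespace W885.GK.I2

open Pool.Agent.W345.GK

section

variable {F : Type} [Field F]

/-- Euler operator `x d/dx` -/
noncomputable def th (f : LS F) : LS F :=
  HahnSeries.single (1 : ℤ) (1 : F) * LaurentSeries.derivative F f

theorem th_coeff (f : LS F) (n : ℤ) : (th f).coeff n = (n : F) * f.coeff n := by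
  unfold th
  rw [HahnSeries.coeff_single_mul, one_mul, LaurentSeries.derivative_apply,
    LaurentSeries.hasseDeriv_coeff]
  have h : n - 1 + ((1 : ℕ) : ℤ) = n := by push_cast; ring
  rw [h, Ring.choose_one_right, zsmul_eq_mul]

theorem th_supp (f : LS F) : (th f).support ⊆ f.support := by
  intro n hn
  rw [HahnSeries.mem_support] at hn ⊢
  intro h
  apply hn
  rw [th_coeff, h, mul_zero]

theorem th_add (f g : LS F) : th (f + g) = th f + th g := by
  ext n
  rw [th_coeff, HahnSeries.coeff_add, HahnSeries.coeff_add, th_coeff, th_coeff, mul_add]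

theorem th_mul (f g : LS F) : th (f * g) = f * th g + g * th f := by
  ext n
  rw [th_coeff, HahnSeries.coeff_add, mul_comm g (th f), HahnSeries.coeff_mul,
    HahnSeries.coeff_mul_right' g.isPWO_support (th_supp g),
    HahnSeries.coeff_mul_left' f.isPWO_support (th_supp f), Finset.mul_sum,
    ← Finset.sum_add_distrib]
  refine Finset.sum_congr rfl fun ij hij => ?_
  have h := (Finset.mem_antidiagonal.1 hij).2.2
  rw [th_coeff, th_coeff, ← h]
  push_cast
  ring

theorem ext_dl (g h : LS F) (hg : g ≠ 0) (hh : h ≠ 0) :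
    th (g * h) / (g * h) = th g / g + th h / h := by
  rw [th_mul]
  field_simp
  ring

theorem div_low (m : ℤ) (f h : LS F) (hh : h ≠ 0) (ho : h.order = 0)
    (hf : ∀ j < m, f.coeff j = 0) : ∀ j < m, (f / h).coeff j = 0 := by
  intro j hj
  by_cases h0 : f = 0
  · rw [h0, zero_div, HahnSeries.coeff_zero]
  · have h1 : f / h ≠ 0 := div_ne_zero h0 hh
    have h2 : ((f / h) * h).order = (f / h).order + h.order := HahnSeries.order_mul h1 hh
    rw [div_mul_cancel₀ f hh, ho, add_zero] at h2
    have h3 : m ≤ f.order := (HahnSeries.le_order_iff_forall h0).2 hf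
    exact HahnSeries.coeff_eq_zero_of_lt_order (by rw [← h2]; exact lt_of_lt_of_le hj h3)

/-- congruent to `1` modulo `x^m` -/
def One1 (m : ℤ) (g : LS F) : Prop := ∀ j < m, (g - 1).coeff j = 0

theorem one_coeff (j : ℤ) : (1 : LS F).coeff j = if j = 0 then 1 else 0 := by
  rw [HahnSeries.coeff_one]
  by_cases h : j = 0
  · rw [if_pos h, if_pos h]
  · rw [if_neg h, if_neg h]

theorem One1.coeff {m : ℤ} {g : LS F} (h : One1 m g) {j : ℤ} (hj : j < m) :
    g.coeff j = if j = 0 then 1 else 0 := by
  have h1 := h j hj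
  rw [HahnSeries.coeff_sub, sub_eq_zero, one_coeff] at h1
  exact h1

theorem One1.ne {m : ℤ} {g : LS F} (h : One1 m g) (hm : 1 ≤ m) : g ≠ 0 := by
  intro h0
  have h1 := h.coeff (j := 0) (by omega)
  rw [h0] at h1
  simp at h1

theorem One1.order {m : ℤ} {g : LS F} (h : One1 m g) (hm : 1 ≤ m) : g.order = 0 := by
  have h1 := h.coeff (j := 0) (by omega)
  rw [if_pos rfl] at h1
  apply le_antisymm
  · apply HahnSeries.order_le_of_coeff_ne_zero
    rw [h1]
    exact one_ne_zero
  · rw [HahnSeries.le_order_iff_forall (h.ne hm)]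
    intro j hj
    rw [h.coeff (by omega), if_neg (by omega)]

theorem One1.dl_low {m : ℤ} {g : LS F} (h : One1 m g) (hm : 1 ≤ m) :
    ∀ j < m, (th g / g).coeff j = 0 := by
  apply div_low m _ g (h.ne hm) (h.order hm)
  intro j hj
  rw [th_coeff, h.coeff hj]
  by_cases h0 : j = 0
  · subst h0
    simp
  · rw [if_neg h0, mul_zero]

/-- the claim -/
def W (p : ℕ) (g : LS F) (n : ℤ) : Prop :=
  (th g / g).coeff (p * n) = ((th g / g).coeff n) ^ p

theorem W_mul (p : ℕ) [Fact p.Prime] [CharP F p] (g h : LS F) (hg : g ≠ 0) (hh : h ≠ 0) (n : ℤ)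
    (h1 : W p g n) (h2 : W p h n) : W p (g * h) n := by
  unfold W at *
  rw [ext_dl g h hg hh, HahnSeries.coeff_add, HahnSeries.coeff_add, h1, h2,
    add_pow_char]

theorem int_pow (p : ℕ) [Fact p.Prime] [CharP F p] (m : ℤ) : (m : F) ^ p = m := by
  have := map_intCast (frobenius F p) m
  rwa [frobenius_def] at this

theorem W_single (p : ℕ) [hp : Fact p.Prime] [CharP F p] (m : ℤ) (c : F) (hc : c ≠ 0) (n : ℤ) :
    W p (HahnSeries.single m c : LS F) n := by
  have h0 : (HahnSeries.single m c : LS F) ≠ 0 := HahnSeries.single_ne_zero hc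
  have h1 : th (HahnSeries.single m c : LS F) =
      HahnSeries.single (0 : ℤ) (m : F) * HahnSeries.single m c := by
    ext j
    rw [th_coeff, HahnSeries.single_mul_single, zero_add]
    by_cases hj : j = m
    · subst hj
      simp
    · rw [HahnSeries.coeff_single_of_ne hj, HahnSeries.coeff_single_of_ne hj, mul_zero]
  unfold W
  rw [h1, mul_div_cancel_right₀ _ h0]
  by_cases hn : n = 0
  · subst hn
    rw [mul_zero, HahnSeries.coeff_single_same, int_pow]
  · have h2 : (p : ℤ) * n ≠ 0 := mul_ne_zero (by exact_mod_cast hp.out.ne_zero) hn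
    rw [HahnSeries.coeff_single_of_ne h2, HahnSeries.coeff_single_of_ne hn,
      zero_pow hp.out.ne_zero]

open Classical in
/-- coefficients of the logarithmic derivative of `1 + c x^m` -/
noncomputable def bb (m : ℕ) (c : F) (n : ℤ) : F :=
  if 0 < n ∧ (m : ℤ) ∣ n then -(m : F) * (-c) ^ (n / m).toNat else 0

theorem bb_bdd (m : ℕ) (c : F) : BddBelow (Function.support (bb m c)) := by
  refine ⟨0, fun n hn => ?_⟩
  by_contra h
  apply hn
  unfold bb
  rw [if_neg]
  rintro ⟨h1, _⟩
  omega

theorem bb_eq (m : ℕ) (hm : 1 ≤ m) (c : F) :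
    th (1 + HahnSeries.single (m : ℤ) c : LS F) / (1 + HahnSeries.single (m : ℤ) c : LS F) =
      HahnSeries.ofSuppBddBelow (bb m c) (bb_bdd m c) := by
  have ho : One1 (m : ℤ) (1 + HahnSeries.single (m : ℤ) c : LS F) := by
    intro j hj
    rw [add_sub_cancel_left, HahnSeries.coeff_single_of_ne hj.ne]
  have h0 : (1 + HahnSeries.single (m : ℤ) c : LS F) ≠ 0 := ho.ne (by exact_mod_cast hm)
  rw [div_eq_iff h0]
  ext n
  rw [th_coeff, mul_add, mul_one, HahnSeries.coeff_add, HahnSeries.coeff_add,
    HahnSeries.coeff_mul_single, HahnSeries.coeff_ofSuppBddBelow, one_coeff]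
  by_cases hd : (m : ℤ) ∣ n
  · obtain ⟨t, rfl⟩ := hd
    have hm0 : (m : ℤ) ≠ 0 := by omega
    have hsub : (m : ℤ) * t - m = m * (t - 1) := by ring
    have e1 : bb m c ((m : ℤ) * t) = if 0 < t then -(m : F) * (-c) ^ t.toNat else 0 := by
      unfold bb
      rw [Int.mul_ediv_cancel_left _ hm0]
      by_cases ht : 0 < t
      · rw [if_pos ht, if_pos ⟨by positivity, dvd_mul_right _ _⟩]
      · rw [if_neg ht, if_neg]
        rintro ⟨h, _⟩
        apply ht
        by_contra h'
        nlinarith
    have e2 : bb m c ((m : ℤ) * t - m) = if 1 < t then -(m : F) * (-c) ^ (t - 1).toNat else 0 := by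
      rw [hsub]
      unfold bb
      rw [Int.mul_ediv_cancel_left _ hm0]
      by_cases ht : 1 < t
      · rw [if_pos ht, if_pos ⟨by apply mul_pos <;> omega, dvd_mul_right _ _⟩]
      · rw [if_neg ht, if_neg]
        rintro ⟨h, _⟩
        apply ht
        by_contra h'
        nlinarith
    rw [e1, e2]
    rcases lt_trichotomy t 1 with ht | ht | ht
    · rw [if_neg (by omega : ¬ 0 < t), if_neg (by omega : ¬ 1 < t)]
      have h3 : (m : ℤ) * t ≠ m := by
        intro h
        have : (m : ℤ) * t = m * 1 := by rw [h, mul_one]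
        have := mul_left_cancel₀ hm0 this
        omega
      rw [HahnSeries.coeff_single_of_ne h3]
      by_cases h4 : (m : ℤ) * t = 0
      · rw [h4]
        simp
      · rw [if_neg h4]
        simp
    · subst ht
      rw [mul_one, if_neg hm0, HahnSeries.coeff_single_same, if_pos (by norm_num),
        if_neg (by norm_num)]
      simp
    · rw [if_pos (by omega : 0 < t), if_pos ht]
      have h3 : (m : ℤ) * t ≠ m := by
        intro h
        have : (m : ℤ) * t = m * 1 := by rw [h, mul_one]
        have := mul_left_cancel₀ hm0 this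
        omega
      have h4 : (m : ℤ) * t ≠ 0 := mul_ne_zero hm0 (by omega)
      rw [HahnSeries.coeff_single_of_ne h3, if_neg h4]
      have h5 : t.toNat = (t - 1).toNat + 1 := by omega
      rw [h5, pow_succ]
      ring
  · have e1 : bb m c n = 0 := by
      unfold bb
      rw [if_neg]
      rintro ⟨_, h⟩
      exact hd h
    have e2 : bb m c (n - m) = 0 := by
      unfold bb
      rw [if_neg]
      rintro ⟨_, h⟩
      apply hd
      have := dvd_add h (dvd_refl (m : ℤ))
      rwa [sub_add_cancel] at this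
    have h3 : n ≠ m := by
      rintro rfl
      exact hd (dvd_refl _)
    have h4 : n ≠ 0 := by
      rintro rfl
      exact hd (dvd_zero _)
    rw [e1, e2, HahnSeries.coeff_single_of_ne h3, if_neg h4]
    simp

theorem W_lin (p : ℕ) [hp : Fact p.Prime] [CharP F p] (m : ℕ) (hm : 1 ≤ m) (c : F) (n : ℤ) :
    W p (1 + HahnSeries.single (m : ℤ) c : LS F) n := by
  unfold W
  rw [bb_eq m hm c, HahnSeries.coeff_ofSuppBddBelow]
  have hp0 : (0 : ℤ) < p := by exact_mod_cast hp.out.pos
  by_cases h1 : 0 < n ∧ (m : ℤ) ∣ n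
  · obtain ⟨h2, t, rfl⟩ := h1
    have hm0 : (m : ℤ) ≠ 0 := by omega
    have ht : 0 < t := by
      by_contra h'
      nlinarith
    unfold bb
    rw [if_pos ⟨by positivity, Dvd.intro (p * t) (by ring)⟩, if_pos ⟨h2, dvd_mul_right _ _⟩]
    have e1 : (p : ℤ) * (m * t) = m * (p * t) := by ring
    rw [e1, Int.mul_ediv_cancel_left _ hm0, Int.mul_ediv_cancel_left _ hm0, mul_pow, ← pow_mul]
    have e2 : (-(m : F)) ^ p = -(m : F) := by
      have := int_pow (F := F) p (-(m : ℤ))
      push_cast at this
      exact this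
    rw [e2]
    congr 2
    have : ((p : ℤ) * t).toNat = p * t.toNat := by
      zify
      rw [Int.toNat_of_nonneg (by positivity), Int.toNat_of_nonneg ht.le]
    rw [this, mul_comm]
  · have e1 : bb m c n = 0 := by
      unfold bb
      rw [if_neg h1]
    rw [e1, zero_pow hp.out.ne_zero]
    unfold bb
    by_cases h2 : 0 < (p : ℤ) * n ∧ (m : ℤ) ∣ (p : ℤ) * n
    · rw [if_pos h2]
      have h3 : 0 < n := by
        by_contra h'
        have := h2.1
        nlinarith
      have h4 : ¬ (m : ℤ) ∣ n := fun h => h1 ⟨h3, h⟩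
      have h5 : p ∣ m := by
        by_contra h
        have hc : Nat.Coprime m p := ((Nat.Prime.coprime_iff_not_dvd hp.out).2 h).symm
        have hc2 : IsCoprime (m : ℤ) (p : ℤ) := Nat.isCoprime_iff_coprime.2 hc
        exact h4 (hc2.dvd_of_dvd_mul_left h2.2)
      have h6 : (m : F) = 0 := (CharP.cast_eq_zero_iff F p m).2 h5
      rw [h6]
      simp
    · rw [if_neg h2]

theorem W_one (p : ℕ) [hp : Fact p.Prime] [CharP F p] (n : ℤ) : ∀ (k m : ℕ) (g : LS F), 1 ≤ m →
    One1 (m : ℤ) g → (p : ℤ) * n < m + k → n < m + k → W p g n := by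
  intro k
  induction k with
  | zero =>
    intro m g hm h h1 h2
    have hm' : (1 : ℤ) ≤ m := by exact_mod_cast hm
    unfold W
    rw [h.dl_low hm' _ (by simpa using h1), h.dl_low hm' _ (by simpa using h2),
      zero_pow hp.out.ne_zero]
  | succ k ih =>
    intro m g hm h h1 h2
    have hm' : (1 : ℤ) ≤ m := by exact_mod_cast hm
    set c := g.coeff m with hc
    set l : LS F := 1 + HahnSeries.single (m : ℤ) c with hl
    have hlo : One1 (m : ℤ) l := by
      intro j hj
      rw [hl, add_sub_cancel_left, HahnSeries.coeff_single_of_ne hj.ne]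
    have hl0 := hlo.ne hm'
    have hg1 : One1 ((m + 1 : ℕ) : ℤ) (g / l) := by
      have e1 : g / l - 1 = (g - l) / l := by
        rw [sub_div, div_self hl0]
      intro j hj
      rw [e1]
      refine div_low ((m + 1 : ℕ) : ℤ) (g - l) l hl0 (hlo.order hm') ?_ j hj
      intro i hi
      rw [HahnSeries.coeff_sub, hl, HahnSeries.coeff_add, one_coeff]
      push_cast at hi
      rcases lt_or_eq_of_le (Int.lt_add_one_iff.1 hi) with h3 | h3
      · rw [h.coeff h3, HahnSeries.coeff_single_of_ne h3.ne]
        simp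
      · subst h3
        rw [HahnSeries.coeff_single_same, if_neg (by omega), hc]
        simp
    have hg0 : g / l ≠ 0 := div_ne_zero (h.ne hm') hl0
    have hW1 := ih (m + 1) (g / l) (by omega) hg1 (by push_cast at h1 ⊢; linarith)
      (by push_cast at h2 ⊢; linarith)
    have hW2 : W p l n := W_lin p m hm c n
    have := W_mul p (g / l) l hg0 hl0 n hW1 hW2
    rwa [div_mul_cancel₀ g hl0] at this

theorem W_all (p : ℕ) [hp : Fact p.Prime] [CharP F p] (g : LS F) (hg : g ≠ 0) (n : ℤ) :
    W p g n := by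
  set c := g.coeff g.order with hc
  have hc0 : c ≠ 0 := by
    intro h
    exact hg (HahnSeries.coeff_order_eq_zero.1 h)
  set s : LS F := HahnSeries.single g.order c with hs
  have hs0 : s ≠ 0 := HahnSeries.single_ne_zero hc0
  have hdiv : g / s = HahnSeries.single (-g.order) c⁻¹ * g := by
    rw [div_eq_mul_inv, hs, HahnSeries.inv_single, mul_comm]
  have hg1 : One1 ((1 : ℕ) : ℤ) (g / s) := by
    intro j hj
    rw [hdiv, HahnSeries.coeff_sub, HahnSeries.coeff_single_mul, one_coeff]
    push_cast at hj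
    by_cases h0 : j = 0
    · subst h0
      have : (0 : ℤ) - -g.order = g.order := by ring
      rw [this, ← hc, inv_mul_cancel₀ hc0]
      simp
    · rw [if_neg h0, HahnSeries.coeff_eq_zero_of_lt_order (by omega)]
      simp
  have hW1 : W p (g / s) n := by
    have h1 := Int.self_le_toNat ((p : ℤ) * n)
    have h2 := Int.self_le_toNat n
    refine W_one p n (((p : ℤ) * n).toNat + n.toNat) 1 (g / s) le_rfl hg1 ?_ ?_
    · push_cast
      omega
    · push_cast
      omega
  have hW2 : W p s n := W_single p g.order c hc0 n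
  have := W_mul p (g / s) s (div_ne_zero hg hs0) hs0 n hW1 hW2
  rwa [div_mul_cancel₀ g hs0] at this

theorem W_pow (p : ℕ) [hp : Fact p.Prime] [CharP F p] (g : LS F) (hg : g ≠ 0) (r : ℕ) :
    ∀ n : ℤ, (th g / g).coeff (((p ^ r : ℕ) : ℤ) * n) = ((th g / g).coeff n) ^ (p ^ r) := by
  induction r with
  | zero =>
    intro n
    simp
  | succ r ih =>
    intro n
    have h := W_all p g hg (((p ^ r : ℕ) : ℤ) * n)
    unfold W at h
    rw [ih n, ← pow_mul] at h
    have e1 : (((p ^ (r + 1) : ℕ)) : ℤ) * n = p * (((p ^ r : ℕ) : ℤ) * n) := by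
      push_cast
      ring
    rw [e1, h, pow_succ]

theorem dl_coeff (q : ℕ) (g : LS F) (j : ℤ) :
    (dl q g).coeff j = -(th g / g).coeff (j - ((q : ℤ) - 1)) := by
  have e1 : dl q g = -(HahnSeries.single ((q : ℤ) - 1) (1 : F) * (th g / g)) := by
    unfold dl Dx th
    have e2 : (HahnSeries.single (q : ℤ) (1 : F) : LS F) =
        HahnSeries.single ((q : ℤ) - 1) (1 : F) * HahnSeries.single (1 : ℤ) (1 : F) := by
      rw [HahnSeries.single_mul_single, sub_add_cancel, mul_one]
    rw [e2, neg_div, mul_assoc, mul_div_assoc]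
  rw [e1, HahnSeries.coeff_neg, HahnSeries.coeff_single_mul, one_mul]

end

theorem i2 : S_I2 := by
  intro k F _ _ _ _ g hg j
  obtain ⟨p, hpc⟩ := CharP.exists k
  obtain ⟨r, hp, hr⟩ := FiniteField.card k p
  haveI : Fact p.Prime := ⟨hp⟩
  haveI : CharP F p := charP_of_injective_algebraMap (algebraMap k F).injective p
  have hneg : (-1 : F) ^ (Fintype.card k) = -1 := by
    have h := congrArg (algebraMap k F) (FiniteField.pow_card (-1 : k))
    rwa [map_pow, map_neg, map_one] at h
  have hW := W_pow p g hg r (j - ((Fintype.card k : ℤ) - 1))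
  rw [← hr] at hW
  rw [dl_coeff, dl_coeff, neg_pow, hneg, ← hW]
  have e1 : (Fintype.card k : ℤ) * j - ((Fintype.card k : ℤ) - 1) ^ 2 - ((Fintype.card k : ℤ) - 1) =
      (Fintype.card k : ℤ) * (j - ((Fintype.card k : ℤ) - 1)) := by ring
  rw [e1, neg_one_mul]

end W885.GK.I2
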